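import Mathlib

/-!
# A connected smooth quandle which does not embed into any group

The smooth quandle is `ℂ × S¹` with `(a, u) ▷ (b, w) = (b + w * conj (a - b), w² u⁻¹)`.
-/

open scoped Manifold ContDiff ComplexConjugate

namespace Pool.Agent.Results.MP_a41668_al.NonEmbeddable

/-- Quandles. -/
structure IsQuandle {X : Type} (op : X → X → X) : Prop where
  idem : ∀ x, op x x = x
  bij : ∀ y, Function.Bijective (fun x => op x y)
  dist : ∀ x y z, op (op x y) z = op (op x z) (op y z)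

/-- The map `S_y`, `x ↦ x ▷ y`, a permutation of `X`. -/
noncomputable def IsQuandle.S {X : Type} {op : X → X → X} (h : IsQuandle op) (y : X) :
    Equiv.Perm X :=
  Equiv.ofBijective (fun x => op x y) (h.bij y)

/-- The group `Inn(X)`. -/
noncomputable def IsQuandle.Inn {X : Type} {op : X → X → X} (h : IsQuandle op) :
    Subgroup (Equiv.Perm X) :=
  Subgroup.closure (Set.range h.S)

/-- Algebraic connectedness: `Inn(X)` acts transitively. -/
def IsQuandle.AlgConnected {X : Type} {op : X → X → X} (h : IsQuandle op) : Prop :=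
  ∀ x y : X, ∃ g ∈ h.Inn, g x = y

/-- The model with corners of the manifold `ℂ × S¹` (real dimension `3`). -/
noncomputable abbrev IX : ModelWithCorners ℝ (ℂ × EuclideanSpace ℝ (Fin 1))
    (ModelProd ℂ (EuclideanSpace ℝ (Fin 1))) :=
  𝓘(ℝ, ℂ).prod (𝓡 1)

/-- The operation. -/
noncomputable def op (x y : ℂ × Circle) : ℂ × Circle :=
  (y.1 + (y.2 : ℂ) * conj (x.1 - y.1), y.2 * y.2 * x.2⁻¹)

theorem coe_mul_conj (u : Circle) : (u : ℂ) * conj (u : ℂ) = 1 := by
  rw [← Circle.coe_inv_eq_conj, ← Circle.coe_mul, mul_inv_cancel, Circle.coe_one]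

theorem op_op (x y : ℂ × Circle) : op (op x y) y = x := by
  apply Prod.ext
  · show y.1 + (y.2 : ℂ) * conj (y.1 + (y.2 : ℂ) * conj (x.1 - y.1) - y.1) = x.1
    rw [add_sub_cancel_left, map_mul, Complex.conj_conj, ← mul_assoc, coe_mul_conj]
    ring
  · show y.2 * y.2 * (y.2 * y.2 * x.2⁻¹)⁻¹ = x.2
    rw [mul_inv, inv_inv, mul_inv_cancel_left]

theorem isQuandle : IsQuandle op where
  idem x := by
    apply Prod.ext
    · show x.1 + (x.2 : ℂ) * conj (x.1 - x.1) = x.1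
      simp
    · show x.2 * x.2 * x.2⁻¹ = x.2
      group
  bij y := (show Function.Involutive (fun x => op x y) from fun x => op_op x y).bijective
  dist x y z := by
    apply Prod.ext
    · show z.1 + (z.2 : ℂ) * conj (y.1 + (y.2 : ℂ) * conj (x.1 - y.1) - z.1) =
        (z.1 + (z.2 : ℂ) * conj (y.1 - z.1)) + ((z.2 * z.2 * y.2⁻¹ : Circle) : ℂ) *
          conj ((z.1 + (z.2 : ℂ) * conj (x.1 - z.1)) - (z.1 + (z.2 : ℂ) * conj (y.1 - z.1)))
      rw [Circle.coe_mul, Circle.coe_mul, Circle.coe_inv_eq_conj]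
      simp only [map_add, map_sub, map_mul, Complex.conj_conj]
      have h := coe_mul_conj z.2
      linear_combination (-(z.2 : ℂ) * conj (y.2 : ℂ) * (x.1 - y.1)) * h
    · show z.2 * z.2 * (y.2 * y.2 * x.2⁻¹)⁻¹ =
        (z.2 * z.2 * y.2⁻¹) * (z.2 * z.2 * y.2⁻¹) * (z.2 * z.2 * x.2⁻¹)⁻¹
      have e : ∀ a b c : Circle, a * a * (b * b * c⁻¹)⁻¹ =
          (a * a * b⁻¹) * (a * a * b⁻¹) * (a * a * c⁻¹)⁻¹ := by
        intro a b c
        rw [mul_inv, mul_inv, mul_inv, mul_inv]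
        calc a * a * (b⁻¹ * b⁻¹ * c⁻¹⁻¹) = (a * a) * (b⁻¹ * b⁻¹ * c⁻¹⁻¹) *
              ((a * a) * (a⁻¹ * a⁻¹)) := by
              rw [show (a * a) * (a⁻¹ * a⁻¹) = 1 by group, mul_one]
          _ = _ := by ac_rfl
      exact e _ _ _

theorem smooth : ContMDiff (IX.prod IX) IX ∞
    (fun p : (ℂ × Circle) × (ℂ × Circle) => op p.1 p.2) := by
  have hx : ContMDiff (IX.prod IX) IX ∞
      (fun p : (ℂ × Circle) × (ℂ × Circle) => p.1) := contMDiff_fst
  have hy : ContMDiff (IX.prod IX) IX ∞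
      (fun p : (ℂ × Circle) × (ℂ × Circle) => p.2) := contMDiff_snd
  have hx1 : ContMDiff (IX.prod IX) 𝓘(ℝ, ℂ) ∞
      (fun p : (ℂ × Circle) × (ℂ × Circle) => p.1.1) := contMDiff_fst.comp hx
  have hx2 : ContMDiff (IX.prod IX) (𝓡 1) ∞
      (fun p : (ℂ × Circle) × (ℂ × Circle) => p.1.2) := contMDiff_snd.comp hx
  have hy1 : ContMDiff (IX.prod IX) 𝓘(ℝ, ℂ) ∞
      (fun p : (ℂ × Circle) × (ℂ × Circle) => p.2.1) := contMDiff_fst.comp hy
  have hy2 : ContMDiff (IX.prod IX) (𝓡 1) ∞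
      (fun p : (ℂ × Circle) × (ℂ × Circle) => p.2.2) := contMDiff_snd.comp hy
  have hc : ContMDiff (𝓡 1) 𝓘(ℝ, ℂ) ∞ (fun u : Circle => (u : ℂ)) := by
    have := finrank_real_complex_fact'
    exact contMDiff_coe_sphere
  have hy2c : ContMDiff (IX.prod IX) 𝓘(ℝ, ℂ) ∞
      (fun p : (ℂ × Circle) × (ℂ × Circle) => (p.2.2 : ℂ)) := hc.comp hy2
  have hlie : LieGroup (𝓡 1) ∞ Circle := LieGroup.of_le le_top
  apply ContMDiff.prodMk
  · have h1 : ContDiff ℝ ∞ (fun q : (ℂ × ℂ) × ℂ => q.1.2 + q.2 * conj (q.1.1 - q.1.2)) := by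
      have hconj : ContDiff ℝ ∞ (fun z : ℂ => conj z) := Complex.conjCLE.contDiff
      exact contDiff_fst.snd.add (contDiff_snd.mul (hconj.comp (contDiff_fst.fst.sub
        contDiff_fst.snd)))
    exact h1.contMDiff.comp ((hx1.prodMk_space hy1).prodMk_space hy2c)
  · exact (hy2.mul hy2).mul hx2.inv

theorem algConnected : isQuandle.AlgConnected := by
  have hS : ∀ y, isQuandle.S y ∈ isQuandle.Inn := fun y => Subgroup.subset_closure ⟨y, rfl⟩
  have htrans : ∀ x y z : ℂ × Circle, (∃ g ∈ isQuandle.Inn, g x = y) →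
      (∃ g ∈ isQuandle.Inn, g y = z) → ∃ g ∈ isQuandle.Inn, g x = z := by
    rintro x y z ⟨g, hg, rfl⟩ ⟨k, hk, rfl⟩
    exact ⟨k * g, mul_mem hk hg, rfl⟩
  have h2 : ∀ x y z : ℂ × Circle, ∃ g ∈ isQuandle.Inn, g x = op (op x y) z := fun x y z =>
    ⟨isQuandle.S z * isQuandle.S y, mul_mem (hS z) (hS y), rfl⟩
  -- real translations
  have hre : ∀ (a : ℂ) (u : Circle) (r : ℝ), ∃ g ∈ isQuandle.Inn, g (a, u) = (a + r, u) := by
    intro a u r
    obtain ⟨g, hg, hgx⟩ := h2 (a, u) (0, -1) (((r / 2 : ℝ) : ℂ), -1)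
    refine ⟨g, hg, ?_⟩
    rw [hgx]
    apply Prod.ext
    · show ((r / 2 : ℝ) : ℂ) + (((-1 : Circle)) : ℂ) * conj (0 + ((-1 : Circle) : ℂ) * conj (a - 0) -
        ((r / 2 : ℝ) : ℂ)) = a + r
      rw [Circle.coe_neg, Circle.coe_one]
      simp only [map_add, map_sub, map_mul, map_neg, map_one, map_zero, Complex.conj_conj,
        Complex.conj_ofReal]
      push_cast
      ring
    · show (-1 : Circle) * (-1) * ((-1) * (-1) * u⁻¹)⁻¹ = u
      simp
  -- imaginary translations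
  have him : ∀ (a : ℂ) (u : Circle) (r : ℝ), ∃ g ∈ isQuandle.Inn,
      g (a, u) = (a + r * Complex.I, u) := by
    intro a u r
    obtain ⟨g, hg, hgx⟩ := h2 (a, u) (0, 1) (((r / 2 : ℝ) : ℂ) * Complex.I, 1)
    refine ⟨g, hg, ?_⟩
    rw [hgx]
    apply Prod.ext
    · show ((r / 2 : ℝ) : ℂ) * Complex.I + ((1 : Circle) : ℂ) *
        conj (0 + ((1 : Circle) : ℂ) * conj (a - 0) - ((r / 2 : ℝ) : ℂ) * Complex.I) =
          a + r * Complex.I
      rw [Circle.coe_one]
      simp only [map_add, map_sub, map_mul, map_one, map_zero, Complex.conj_conj,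
        Complex.conj_ofReal, Complex.conj_I]
      push_cast
      ring
    · show (1 : Circle) * 1 * (1 * 1 * u⁻¹)⁻¹ = u
      simp
  have htr : ∀ (a b : ℂ) (u : Circle), ∃ g ∈ isQuandle.Inn, g (a, u) = (b, u) := by
    intro a b u
    refine htrans _ _ _ (hre a u (b - a).re) ?_
    obtain ⟨g, hg, hgx⟩ := him (a + ((b - a).re : ℂ)) u (b - a).im
    refine ⟨g, hg, ?_⟩
    rw [hgx, add_assoc, Complex.re_add_im]
    congr 1
    ring
  -- rotations
  have hrot : ∀ (a : ℂ) (u v : Circle), ∃ b : ℂ, ∃ g ∈ isQuandle.Inn, g (a, u) = (b, v) := by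
    intro a u v
    obtain ⟨γ, hγ⟩ : ∃ γ : Circle, γ * γ = v * u⁻¹ := by
      obtain ⟨t, ht⟩ := Circle.exp_surjective (v * u⁻¹)
      refine ⟨Circle.exp (t / 2), ?_⟩
      rw [← Circle.exp_add, add_halves, ht]
    obtain ⟨g, hg, hgx⟩ := h2 (a, u) (0, 1) (0, γ)
    refine ⟨(op (op (a, u) (0, 1)) (0, γ)).1, g, hg, ?_⟩
    rw [hgx]
    apply Prod.ext
    · rfl
    · show γ * γ * (1 * 1 * u⁻¹)⁻¹ = v
      rw [hγ]
      simp
  rintro ⟨a, u⟩ ⟨b, v⟩
  obtain ⟨c, hc⟩ := hrot a u v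
  exact htrans _ _ _ hc (htr c b v)

theorem not_embeddable {G : Type*} [Group G] (ι : ℂ × Circle → G)
    (hι : ∀ x y, ι (op x y) = (ι y)⁻¹ * ι x * ι y) : ¬ Function.Injective ι := by
  intro hinj
  have h1 : op (1, -1) (0, 1) = (1, -1) := by
    apply Prod.ext
    · show (0 : ℂ) + ((1 : Circle) : ℂ) * conj ((1 : ℂ) - 0) = 1
      simp
    · show (1 : Circle) * 1 * (-1)⁻¹ = -1
      simp
  have h2 : op (0, 1) (1, -1) ≠ (0, 1) := by
    intro h
    have h3 := congrArg Prod.fst h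
    have h4 : (1 : ℂ) + ((-1 : Circle) : ℂ) * conj ((0 : ℂ) - 1) = 0 := h3
    rw [Circle.coe_neg, Circle.coe_one] at h4
    simp only [map_sub, map_zero, map_one] at h4
    norm_num at h4
  apply h2
  apply hinj
  have h3 := hι (1, -1) (0, 1)
  rw [h1] at h3
  rw [hι]
  -- `ι x` and `ι y` commute
  have h4 : ι (0, 1) * ι (1, -1) = ι (1, -1) * ι (0, 1) := by
    nth_rewrite 1 [h3]
    group
  rw [mul_assoc, h4]
  group

/-- **Theorem.** There is a smooth quandle structure on the manifold `ℂ × S¹`, topologically and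
algebraically connected, which admits no injective quandle homomorphism into `Conj(G)` for any
group `G`; in particular there is no smooth embedding into a Lie group which is a quandle
homomorphism. -/
theorem result : ∃ (op : ℂ × Circle → ℂ × Circle → ℂ × Circle) (h : IsQuandle op),
    ContMDiff (IX.prod IX) IX ∞ (fun p : (ℂ × Circle) × (ℂ × Circle) => op p.1 p.2) ∧
    IsManifold IX ∞ (ℂ × Circle) ∧ ConnectedSpace (ℂ × Circle) ∧ h.AlgConnected ∧
    ∀ (G : Type) [Group G] (ι : ℂ × Circle → G),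
      (∀ x y, ι (op x y) = (ι y)⁻¹ * ι x * ι y) → ¬ Function.Injective ι := by
  refine ⟨op, isQuandle, smooth, ?_, inferInstance, algConnected,
    fun G _ ι hι => not_embeddable ι hι⟩
  have : IsManifold (𝓡 1) ∞ Circle := IsManifold.of_le (n := ω) le_top
  infer_instance

end Pool.Agent.Results.MP_a41668_al.NonEmbeddable
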